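import Pool.Agent.Lib.MP_e1010f_gen.GG

set_option autoImplicit false

open Set MeasureTheory Pool.Agent.Lib.MP_e1010f_an

namespace Pool.Agent.Results.MP_e1010f_an.GenericSynchrony

/-- Prevalence of balanced synchrony: there is a finite family `q` of smooth admissible fields such
that for every locally Lipschitz admissible `f` and almost every parameter `a`, any synchrony
`x_c = y_d` on an interval between two solutions of `z' = f z + ∑ aᵢ qᵢ z` is inherited by the
inputs along an input isomorphism. For `y = x` this says that the synchrony pattern of `x` on the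
interval is balanced. -/
theorem result {C A : Type} [Fintype C] [Fintype A] [DecidableEq C] (G : Network C A)
    {V : Type} [NormedAddCommGroup V] [NormedSpace ℝ V] [FiniteDimensional ℝ V]
    (P : C → Submodule ℝ V) (hP : ∀ c d, G.nodeType c d → P c = P d) (hP0 : ∀ c, P c ≠ ⊥) :
    ∃ (m : ℕ) (q : Fin m → State P → State P),
      (∀ i, G.SmoothAdmissible P (q i) ∧ ∃ M, ∀ z, ‖q i z‖ ≤ M ∧ ‖fderiv ℝ (q i) z‖ ≤ M) ∧
      ∀ f : State P → State P, LocallyLipschitz f → G.Admissible P f →
        ∀ᵐ a : Fin m → ℝ, ∀ (x y : ℝ → State P) (s t : ℝ), s < t →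
          (∀ u ∈ Ioo s t, HasDerivAt x (f (x u) + ∑ i, a i • q i (x u)) u) →
          (∀ u ∈ Ioo s t, HasDerivAt y (f (y u) + ∑ i, a i • q i (y u)) u) →
          ∀ c d, (∀ u ∈ Ioo s t, (x u c : V) = y u d) →
            ∃ β : G.In c ≃ G.In d, G.IsInputIso c d β ∧
              ∀ e : G.In c, ∀ u ∈ Ioo s t, (x u (G.tail e.1) : V) = y u (G.tail (β e).1) :=
  Pool.Agent.Lib.MP_e1010f_gen.generic_two hP hP0

end Pool.Agent.Results.MP_e1010f_an.GenericSynchrony
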