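import Pool.Agent.Lib.MP_e1010f_an.Final

set_option autoImplicit false

open Pool.Agent.Lib.MP_e1010f_an

namespace Pool.Agent.Results.MP_e1010f_an.RigidSynchrony

/-- The rigid synchrony conjecture: a rigid synchrony pattern of a hyperbolic periodic orbit of an
admissible `C¹` vector field on a finite network is balanced. -/
theorem result {C A : Type} [Fintype C] [Fintype A] [DecidableEq C] (G : Network C A)
    {V : Type} [NormedAddCommGroup V] [NormedSpace ℝ V] [FiniteDimensional ℝ V]
    (P : C → Submodule ℝ V) (hP : ∀ c d, G.nodeType c d → P c = P d) (hP0 : ∀ c, P c ≠ ⊥)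
    (f : State P → State P) (hf : ContDiff ℝ 1 f) (hadm : G.Admissible P f)
    (x : ℝ → State P) (T : ℝ) (hx : IsPeriodicOrbit f x T) (hhyp : IsHyperbolic f x T)
    (hrig : G.Rigid P f x T) : G.Balanced (Sync P x) :=
  rigid_balanced hP hP0 hf hadm hx hhyp hrig

end Pool.Agent.Results.MP_e1010f_an.RigidSynchrony
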